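import Pool.Agent.Lib_helper35.DC.Defs

/-! Block LM: convergence from approximation by convergent functions. -/

set_option autoImplicit false

open MeasureTheory Filter Topology

namespace Pool.Agent.DC

/-- BLOCK LM. Convergence from approximation by convergent functions. -/
theorem LM_main (F : ℝ → ℝ) (h : ∀ ε > 0, ∃ (u : ℝ → ℝ) (L : ℝ), Tendsto u atTop (𝓝 L) ∧
    ∀ᶠ r in atTop, |F r - u r| ≤ ε) : ∃ L, Tendsto F atTop (𝓝 L) := by
  have hc : CauchySeq F := by
    rw [Metric.cauchySeq_iff]
    intro ε hε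
    obtain ⟨u, L, hu, hF⟩ := h (ε / 4) (by linarith)
    have h1 : ∀ᶠ r in atTop, dist (u r) L < ε / 4 :=
      (Metric.tendsto_nhds.mp hu) (ε / 4) (by linarith)
    obtain ⟨N, hN⟩ := (h1.and hF).exists_forall_of_atTop
    have h2 : ∀ r, N ≤ r → |F r - L| < ε / 2 := by
      intro r hr
      obtain ⟨ha, hb⟩ := hN r hr
      rw [Real.dist_eq] at ha
      have h3 : |F r - L| ≤ |F r - u r| + |u r - L| := abs_sub_le _ _ _
      linarith
    refine ⟨N, fun m hm n hn => ?_⟩
    rw [Real.dist_eq]
    have h4 := h2 m hm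
    have h5 := h2 n hn
    have h6 : |F m - F n| ≤ |F m - L| + |L - F n| := abs_sub_le _ _ _
    rw [abs_sub_comm L (F n)] at h6
    linarith
  exact cauchySeq_tendsto_of_complete hc

end Pool.Agent.DC
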